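import Pool.Agent.W192.AW.Final3

open Filter MeasureTheory

namespace Pool.Agent.Results.MP_ca0a54_nt.AlmostAllIntervals

/-- multiplicity of `s` as a zero of the Riemann zeta function (order of vanishing at `s`) -/
noncomputable def zmult (s : ℂ) : ℕ := analyticOrderNatAt riemannZeta s

/-- the number of nontrivial zeros of `ζ` with ordinate in `(0, t]`, with multiplicity -/
noncomputable def NZ (t : ℝ) : ℕ :=
  ∑ᶠ s ∈ {s : ℂ | riemannZeta s = 0 ∧ 0 < s.re ∧ s.re < 1 ∧ 0 < s.im ∧ s.im ≤ t}, zmult s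

/-- for `n ≥ 1`: the `n`-th positive ordinate of a nontrivial zero of `ζ`, the ordinates being
listed in nondecreasing order and repeated according to multiplicity -/
noncomputable def ord (n : ℕ) : ℝ := sInf {t : ℝ | n ≤ NZ t}

/-- the gap bound `(4π / log (T^3 H)) (1 + C log log T / log T)`; for `H = T^θ` the main term is
`2 / (3 + θ)` times the mean spacing `2π / log T` -/
noncomputable def gb (C H T : ℝ) : ℝ :=
  4 * Real.pi / Real.log (T ^ 3 * H) * (1 + C * (Real.log (Real.log T) / Real.log T))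

/-- Small gaps between consecutive ordinates of zeta zeros in almost all short intervals
(unconditional).

(1) For every `B` there are `C`, `T0` such that for `T ≥ T0` and `(log T)^(B+39) ≤ H ≤ T` the set
of `t ∈ [T, 2T]` for which `[t, t + H]` contains no two consecutive ordinates at distance at most
`gb C H T` has Lebesgue measure at most `T / (log T)^B`.

(2) There are `C`, `T0` such that for `T ≥ T0` and `(log T)^40 ≤ H ≤ T / 4` there are at least
`T / (2H)` indices `n` with `T ≤ γ_n`, `γ_(n+1) ≤ 2T` and `γ_(n+1) - γ_n ≤ gb C H T`.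

(3) If `0 < θ < 1` and `c > 2 / (3 + θ)` then for all large `T` there are at least `T^(1-θ) / 2`
indices `n` with `T ≤ γ_n`, `γ_(n+1) ≤ 2T` and `γ_(n+1) - γ_n < c (2π / log T)`. -/
theorem result :
    (∀ B : ℕ, ∃ C T0 : ℝ, 0 < C ∧ ∀ T H : ℝ, T0 ≤ T → Real.log T ^ (B + 39) ≤ H → H ≤ T →
      volume {t : ℝ | T ≤ t ∧ t ≤ 2 * T ∧
        ¬ ∃ n : ℕ, 1 ≤ n ∧ t ≤ ord n ∧ ord n ≤ ord (n + 1) ∧ ord (n + 1) ≤ t + H ∧
          ord (n + 1) - ord n ≤ gb C H T} ≤ ENNReal.ofReal (T / Real.log T ^ B)) ∧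
    (∃ C T0 : ℝ, 0 < C ∧ ∀ T H : ℝ, T0 ≤ T → Real.log T ^ 40 ≤ H → H ≤ T / 4 →
      T / (2 * H) ≤ ({n : ℕ | 1 ≤ n ∧ T ≤ ord n ∧ ord (n + 1) ≤ 2 * T ∧
        ord (n + 1) - ord n ≤ gb C H T}.ncard : ℝ)) ∧
    (∀ c θ : ℝ, 0 < θ → θ < 1 → 2 / (3 + θ) < c → ∃ T0 : ℝ, ∀ T : ℝ, T0 ≤ T →
      T ^ (1 - θ) / 2 ≤ ({n : ℕ | 1 ≤ n ∧ T ≤ ord n ∧ ord (n + 1) ≤ 2 * T ∧
        ord (n + 1) - ord n < c * (2 * Real.pi / Real.log T)}.ncard : ℝ)) := by
  refine ⟨fun B => Pool.Agent.W192.AW.almost_all B, Pool.Agent.W192.AW.count, ?_⟩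
  intro c θ h0 h1 h2
  have h3 : 2 < c * (3 + θ) := by
    rwa [div_lt_iff₀ (by linarith)] at h2
  exact Pool.Agent.W192.AW.count_pow c θ h0 h1 h3

end Pool.Agent.Results.MP_ca0a54_nt.AlmostAllIntervals
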