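import Pool.Agent.W192.PP.Fin2

namespace Pool.Agent.Results.MP_ca0a54_nt.PositiveProportion

/-- multiplicity of `s` as a zero of the Riemann zeta function (order of vanishing at `s`) -/
noncomputable def zmult (s : ℂ) : ℕ := analyticOrderNatAt riemannZeta s

/-- the number of nontrivial zeros of `ζ` with ordinate in `(0, t]`, with multiplicity -/
noncomputable def NZ (t : ℝ) : ℕ :=
  ∑ᶠ s ∈ {s : ℂ | riemannZeta s = 0 ∧ 0 < s.re ∧ s.re < 1 ∧ 0 < s.im ∧ s.im ≤ t}, zmult s

/-- for `n ≥ 1`: the `n`-th positive ordinate `γ_n` of a nontrivial zero of `ζ`, the ordinates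
being listed in nondecreasing order and repeated according to multiplicity -/
noncomputable def ord (n : ℕ) : ℝ := sInf {t : ℝ | n ≤ NZ t}

/-- A positive proportion of the gaps between consecutive ordinates of zeta zeros is small, in
every short interval, unconditionally: if `0 < θ ≤ 1` and `c > 2 / (2 + θ)` there are `κ > 0` and
`T0` such that for all `T ≥ T0` and every interval `[t0, t0 + H]` inside `[T, 2T]` of length
`H ≥ T^θ` there are at least `κ H log T` indices `n` with `t0 ≤ γ_n`, `γ_(n+1) ≤ t0 + H` and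
`γ_(n+1) - γ_n < c (2π / log T)`. In particular (`θ = 1`) every `c > 2 / 3` is allowed for the
dyadic interval `[T, 2T]`. -/
theorem result : ∀ θ c : ℝ, 0 < θ → θ ≤ 1 → 2 / (2 + θ) < c →
    ∃ κ T0 : ℝ, 0 < κ ∧ ∀ T t0 H : ℝ, T0 ≤ T → T ≤ t0 → t0 + H ≤ 2 * T → T ^ θ ≤ H →
      κ * H * Real.log T ≤ ({n : ℕ | 1 ≤ n ∧ t0 ≤ ord n ∧ ord (n + 1) ≤ t0 + H ∧
        ord (n + 1) - ord n < c * (2 * Real.pi / Real.log T)}.ncard : ℝ) :=
  fun θ c h0 h1 h2 => Pool.Agent.W192.PP.pos_prop θ c h0 h1 h2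

end Pool.Agent.Results.MP_ca0a54_nt.PositiveProportion
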