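import Pool.Agent.W192.SI.Final

open Filter

namespace Pool.Agent.Results.MP_ca0a54_nt.ShortIntervalGaps

/-- multiplicity of `s` as a zero of the Riemann zeta function (order of vanishing at `s`) -/
noncomputable def zmult (s : ℂ) : ℕ := analyticOrderNatAt riemannZeta s

/-- the number of nontrivial zeros of `ζ` with ordinate in `(0, t]`, with multiplicity -/
noncomputable def NZ (t : ℝ) : ℕ :=
  ∑ᶠ s ∈ {s : ℂ | riemannZeta s = 0 ∧ 0 < s.re ∧ s.re < 1 ∧ 0 < s.im ∧ s.im ≤ t}, zmult s

/-- for `n ≥ 1`: the `n`-th positive ordinate of a nontrivial zero of `ζ`, the ordinates being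
listed in nondecreasing order and repeated according to multiplicity -/
noncomputable def ord (n : ℕ) : ℝ := sInf {t : ℝ | n ≤ NZ t}

/-- Small gaps in every short interval, with a uniform second-order term (unconditional): there are
`C` and `T0` such that for all `T ≥ T0` and all `(log T)^6 ≤ H ≤ T` the interval `[T, T + H]`
contains consecutive ordinates at distance at most
`(2π / log (T H)) (1 + C / log H + C log log T / log T)`. -/
theorem result : ∃ C T0 : ℝ, 0 < C ∧ ∀ T H : ℝ, T0 ≤ T → Real.log T ^ 6 ≤ H → H ≤ T →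
    ∃ n : ℕ, 1 ≤ n ∧ T ≤ ord n ∧ ord n ≤ ord (n + 1) ∧ ord (n + 1) ≤ T + H ∧
      ord (n + 1) - ord n ≤ 2 * Real.pi / Real.log (T * H) *
        (1 + C / Real.log H + C * (Real.log (Real.log T) / Real.log T)) := by
  obtain ⟨C, T0, hC, h⟩ := Pool.Agent.W192.SI.short_gaps
  refine ⟨C, T0, hC, fun T H hT h1 h2 => ?_⟩
  obtain ⟨n, hn, h3, h4, h5⟩ := h T H hT h1 h2
  exact ⟨n, hn, h3, SG.ord_mono hn (by omega), h4, h5⟩

end Pool.Agent.Results.MP_ca0a54_nt.ShortIntervalGaps
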